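import Mathlib

open Finset

namespace Pool.Agent.V11313.Surplus

/-- The abundancy `h(n) = σ(n)/n`. -/
noncomputable def h (n : ℕ) : ℝ := (∑ d ∈ n.divisors, (d : ℝ)) / n

/-- `H(n) = ∏_{p ∣ n} p/(p-1)`, the product over the distinct primes dividing `n`. -/
noncomputable def H (n : ℕ) : ℝ := ∏ p ∈ n.primeFactors, (p : ℝ) / ((p : ℝ) - 1)

/-- The surplus `S(n) = H(n) - 2`. -/
noncomputable def S (n : ℕ) : ℝ := H n - 2

/-- `g(n) = S(n) * n^(1/2)`. -/
noncomputable def g (n : ℕ) : ℝ := S n * Real.sqrt n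

/-- `n` is non-deficient: `n` is positive and `σ(n) ≥ 2n`. -/
def NonDeficient (n : ℕ) : Prop := 0 < n ∧ 2 * n ≤ ∑ d ∈ n.divisors, d

/-- `B₁`: the odd non-deficient numbers that set a record for `g` among the odd non-deficient
numbers. -/
def B1 : Set ℕ := {n | Odd n ∧ NonDeficient n ∧ ∀ k < n, Odd k → NonDeficient k → g k < g n}

lemma nonDeficient_iff {n : ℕ} (hn : 0 < n) : NonDeficient n ↔ 2 ≤ h n := by
  unfold NonDeficient h
  rw [le_div_iff₀ (by exact_mod_cast hn), ← Nat.cast_sum]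
  constructor
  · rintro ⟨_, h2⟩
    have : ((2 * n : ℕ) : ℝ) ≤ ((∑ d ∈ n.divisors, d : ℕ) : ℝ) := Nat.cast_le.mpr h2
    simpa using this
  · intro h2
    refine ⟨hn, ?_⟩
    have : ((2 * n : ℕ) : ℝ) ≤ ((∑ d ∈ n.divisors, d : ℕ) : ℝ) := by simpa using h2
    exact Nat.cast_le.mp this

lemma h_eq_prod {n : ℕ} (hn : n ≠ 0) :
    h n = ∏ p ∈ n.primeFactors, (∑ i ∈ range (n.factorization p + 1), (p : ℝ) ^ i) /
      (p : ℝ) ^ (n.factorization p) := by
  unfold h
  rw [Finset.prod_div_distrib]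
  have h1 : (∑ d ∈ n.divisors, (d : ℝ)) =
      ∏ p ∈ n.primeFactors, (∑ i ∈ range (n.factorization p + 1), (p : ℝ) ^ i) := by
    have := ArithmeticFunction.sigma_eq_prod_primeFactors_sum_range_factorization_pow_mul (k := 1) hn
    rw [ArithmeticFunction.sigma_one_apply] at this
    simp only [mul_one] at this
    have h3 : ((∑ d ∈ n.divisors, d : ℕ) : ℝ) =
        ((∏ p ∈ n.primeFactors, ∑ i ∈ range (n.factorization p + 1), p ^ i : ℕ) : ℝ) := by
      rw [this]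
    push_cast at h3
    exact h3
  have h2 : (n : ℝ) = ∏ p ∈ n.primeFactors, (p : ℝ) ^ (n.factorization p) := by
    conv_lhs => rw [← Nat.prod_factorization_pow_eq_self hn]
    rw [Finsupp.prod, Nat.support_factorization]
    push_cast
    rfl
  rw [h1, ← h2]

lemma prime_cast_ge {p : ℕ} (hp : p.Prime) : (2 : ℝ) ≤ p := by exact_mod_cast hp.two_le

lemma h_le_H {n : ℕ} (hn : n ≠ 0) : h n ≤ H n := by
  rw [h_eq_prod hn]
  unfold H
  apply Finset.prod_le_prod
  · intro p _; positivity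
  · intro p hp
    have hp' := prime_cast_ge (Nat.prime_of_mem_primeFactors hp)
    rw [geom_sum_eq (by linarith), div_div, div_le_div_iff₀ (by
      apply mul_pos <;> [linarith; positivity]) (by linarith)]
    have : (0 : ℝ) < (p : ℝ) ^ (n.factorization p) := by positivity
    have e : (p : ℝ) ^ (n.factorization p + 1) = p ^ (n.factorization p) * p := pow_succ _ _
    rw [e]
    nlinarith

lemma h_ge_prod {n : ℕ} (hn : n ≠ 0) : ∏ p ∈ n.primeFactors, (1 + 1 / (p : ℝ)) ≤ h n := by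
  rw [h_eq_prod hn]
  apply Finset.prod_le_prod
  · intro p _; positivity
  · intro p hp
    have hpp := Nat.prime_of_mem_primeFactors hp
    have hp' := prime_cast_ge hpp
    have hk : 1 ≤ n.factorization p :=
      (hpp.dvd_iff_one_le_factorization hn).mp (Nat.dvd_of_mem_primeFactors hp)
    obtain ⟨k, hk'⟩ : ∃ k, n.factorization p = k + 1 := ⟨n.factorization p - 1, by omega⟩
    rw [hk', le_div_iff₀ (by positivity), Finset.sum_range_succ, Finset.sum_range_succ]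
    have : (0 : ℝ) ≤ ∑ i ∈ range k, (p : ℝ) ^ i := by positivity
    have e : (1 + 1 / (p : ℝ)) * (p : ℝ) ^ (k + 1) = p ^ (k + 1) + p ^ k := by
      field_simp
      ring
    rw [e]
    linarith

lemma prod_Icc_one_sub_sq (N : ℕ) (hN : 1 ≤ N) :
    ∏ k ∈ Icc 2 N, (1 - 1 / (k : ℝ) ^ 2) = ((N : ℝ) + 1) / (2 * N) := by
  induction N, hN using Nat.le_induction with
  | base => norm_num
  | succ m hm ih =>
    rw [← Finset.insert_Icc_right_eq_Icc_add_one (by omega : 2 ≤ m + 1), Finset.prod_insert (by simp), ih]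
    have h0 : (m : ℝ) ≠ 0 := by positivity
    have h1 : (m : ℝ) + 1 ≠ 0 := by positivity
    push_cast
    field_simp
    ring

lemma prod_one_sub_sq_ge (s : Finset ℕ) (hs : ∀ p ∈ s, 2 ≤ p) :
    (1 : ℝ) / 2 ≤ ∏ p ∈ s, (1 - 1 / (p : ℝ) ^ 2) := by
  obtain ⟨N, hN⟩ : ∃ N, ∀ p ∈ s, p ≤ N := ⟨s.sup id, fun p hp => Finset.le_sup (f := id) hp⟩
  have hsub : s ⊆ Icc 2 (N + 1) := by
    intro p hp
    rw [mem_Icc]
    exact ⟨hs p hp, (hN p hp).trans (Nat.le_succ N)⟩
  have hfac : ∀ p : ℕ, 2 ≤ p → (0 : ℝ) ≤ 1 - 1 / (p : ℝ) ^ 2 ∧ 1 - 1 / (p : ℝ) ^ 2 ≤ 1 := by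
    intro p hp
    have : (2 : ℝ) ≤ p := by exact_mod_cast hp
    have h1 : 1 / (p : ℝ) ^ 2 ≤ 1 := by
      rw [div_le_one (by positivity)]
      nlinarith
    constructor
    · linarith
    · have : (0 : ℝ) ≤ 1 / (p : ℝ) ^ 2 := by positivity
      linarith
  have h1 := prod_Icc_one_sub_sq (N + 1) (by omega)
  rw [← Finset.prod_sdiff hsub] at h1
  have h2 : ∏ k ∈ Icc 2 (N + 1) \ s, (1 - 1 / (k : ℝ) ^ 2) ≤ 1 := by
    apply Finset.prod_le_one
    · intro k hk
      exact (hfac k (mem_Icc.mp (mem_sdiff.mp hk).1).1).1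
    · intro k hk
      exact (hfac k (mem_Icc.mp (mem_sdiff.mp hk).1).1).2
  have h3 : (0 : ℝ) ≤ ∏ p ∈ s, (1 - 1 / (p : ℝ) ^ 2) :=
    Finset.prod_nonneg (fun k hk => (hfac k (hs k hk)).1)
  have h4 : (1 : ℝ) / 2 ≤ ((N + 1 : ℕ) + 1) / (2 * (N + 1 : ℕ)) := by
    rw [div_le_div_iff₀ (by norm_num) (by positivity)]
    push_cast
    nlinarith
  calc (1 : ℝ) / 2 ≤ _ := h4
    _ = (∏ k ∈ Icc 2 (N + 1) \ s, (1 - 1 / (k : ℝ) ^ 2)) * ∏ p ∈ s, (1 - 1 / (p : ℝ) ^ 2) := h1.symm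
    _ ≤ 1 * ∏ p ∈ s, (1 - 1 / (p : ℝ) ^ 2) := mul_le_mul_of_nonneg_right h2 h3
    _ = _ := one_mul _

lemma H_pos (n : ℕ) : 0 < H n := by
  unfold H
  apply Finset.prod_pos
  intro p hp
  have := prime_cast_ge (Nat.prime_of_mem_primeFactors hp)
  apply div_pos <;> linarith

lemma H_le_two_h {n : ℕ} (hn : n ≠ 0) : H n ≤ 2 * h n := by
  have h1 : ∏ p ∈ n.primeFactors, (1 + 1 / (p : ℝ)) =
      H n * ∏ p ∈ n.primeFactors, (1 - 1 / (p : ℝ) ^ 2) := by
    unfold H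
    rw [← Finset.prod_mul_distrib]
    apply Finset.prod_congr rfl
    intro p hp
    have := prime_cast_ge (Nat.prime_of_mem_primeFactors hp)
    have h2 : (p : ℝ) - 1 ≠ 0 := by linarith
    have h3 : (p : ℝ) ≠ 0 := by linarith
    field_simp
    ring
  have h2 := prod_one_sub_sq_ge n.primeFactors (fun p hp => (Nat.prime_of_mem_primeFactors hp).two_le)
  have h3 := h_ge_prod hn
  rw [h1] at h3
  have := H_pos n
  nlinarith

/-- The odd primes up to `P`. -/
def oddPr (P : ℕ) : Finset ℕ := (range (P + 1)).filter (fun p => p.Prime ∧ Odd p)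

/-- The odd primorial. -/
def NP (P : ℕ) : ℕ := ∏ p ∈ oddPr P, p

lemma mem_oddPr {P p : ℕ} : p ∈ oddPr P ↔ p ≤ P ∧ p.Prime ∧ Odd p := by
  unfold oddPr
  rw [mem_filter, mem_range, Nat.lt_succ_iff]

lemma primeFactors_NP (P : ℕ) : (NP P).primeFactors = oddPr P :=
  Nat.primeFactors_prod (fun p hp => (mem_oddPr.mp hp).2.1)

lemma NP_pos (P : ℕ) : 0 < NP P :=
  Finset.prod_pos (fun p hp => (mem_oddPr.mp hp).2.1.pos)

lemma odd_NP (P : ℕ) : Odd (NP P) := by
  unfold NP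
  apply Finset.prod_induction
  · intro a b; exact Odd.mul
  · exact odd_one
  · intro p hp; exact (mem_oddPr.mp hp).2.2

lemma exists_prod_ge (C : ℝ) (P₀ : ℕ) : ∃ P ≥ P₀, C ≤ ∏ p ∈ oddPr P, (1 + 1 / (p : ℝ)) := by
  -- divergence of the sum of reciprocals of the odd primes
  have hns : ¬ Summable (Set.indicator {p : ℕ | p.Prime} (fun n : ℕ => (1 : ℝ) / n)) :=
    not_summable_one_div_on_primes
  have hns2 : ¬ Summable (Set.indicator {p : ℕ | p.Prime ∧ Odd p} (fun n : ℕ => (1 : ℝ) / n)) := by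
    intro hs
    apply hns
    refine (summable_nat_add_iff 3).mp ?_
    refine ((summable_nat_add_iff 3).mpr hs).congr ?_
    intro n
    by_cases hp : (n + 3).Prime
    · have ho : Odd (n + 3) := hp.odd_of_ne_two (by omega)
      rw [Set.indicator_of_mem (show n + 3 ∈ {p : ℕ | p.Prime} from hp),
        Set.indicator_of_mem (show n + 3 ∈ {p : ℕ | p.Prime ∧ Odd p} from ⟨hp, ho⟩)]
    · rw [Set.indicator_of_notMem (show n + 3 ∉ {p : ℕ | p.Prime} from hp),
        Set.indicator_of_notMem (show n + 3 ∉ {p : ℕ | p.Prime ∧ Odd p} from fun h => hp h.1)]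
  have hnonneg : ∀ n : ℕ, 0 ≤ Set.indicator {p : ℕ | p.Prime ∧ Odd p} (fun n : ℕ => (1 : ℝ) / n) n := by
    intro n
    apply Set.indicator_nonneg
    intro x _
    positivity
  have ht := (not_summable_iff_tendsto_nat_atTop_of_nonneg hnonneg).mp hns2
  obtain ⟨M, hM⟩ := Filter.eventually_atTop.mp (ht.eventually_ge_atTop C)
  refine ⟨max M P₀, le_max_right _ _, ?_⟩
  have h1 := hM (max M P₀ + 1) ((le_max_left _ _).trans (Nat.le_succ _))
  have h2 : ∑ i ∈ range (max M P₀ + 1),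
      Set.indicator {p : ℕ | p.Prime ∧ Odd p} (fun n : ℕ => (1 : ℝ) / n) i
      = ∑ p ∈ oddPr (max M P₀), 1 / (p : ℝ) := by
    unfold oddPr
    rw [Finset.sum_filter]
    apply Finset.sum_congr rfl
    intro i _
    rw [Set.indicator_apply]
    rfl
  rw [h2] at h1
  refine h1.trans ?_
  have h3 : ∀ s : Finset ℕ, 1 + ∑ p ∈ s, 1 / (p : ℝ) ≤ ∏ p ∈ s, (1 + 1 / (p : ℝ)) := by
    intro s
    induction s using Finset.induction_on with
    | empty => simp
    | insert a s ha ih =>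
      rw [Finset.sum_insert ha, Finset.prod_insert ha]
      have h4 : (0 : ℝ) ≤ ∑ p ∈ s, 1 / (p : ℝ) := Finset.sum_nonneg (fun i _ => by positivity)
      have h5 : (0 : ℝ) ≤ 1 / (a : ℝ) := by positivity
      nlinarith
  linarith [h3 (oddPr (max M P₀))]

lemma two_le_H {n : ℕ} (hn : NonDeficient n) : 2 ≤ H n :=
  ((nonDeficient_iff hn.1).mp hn).trans (h_le_H hn.1.ne')

lemma exists_record {n : ℕ} (ho : Odd n) (hn : NonDeficient n) :
    ∃ b ∈ B1, b ≤ n ∧ g n ≤ g b := by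
  induction n using Nat.strong_induction_on with
  | _ n ih =>
    by_cases hb : n ∈ B1
    · exact ⟨n, hb, le_rfl, le_rfl⟩
    · have : ∃ k < n, Odd k ∧ NonDeficient k ∧ g n ≤ g k := by
        by_contra hcon
        push Not at hcon
        exact hb ⟨ho, hn, fun k hk hko hkn => hcon k hk hko hkn⟩
      obtain ⟨k, hk, hko, hkn, hg⟩ := this
      obtain ⟨b, hb1, hb2, hb3⟩ := ih k hk hko hkn
      exact ⟨b, hb1, hb2.trans hk.le, hg.trans hb3⟩

lemma NP_nonDeficient {P : ℕ} (hP : 2 ≤ ∏ p ∈ oddPr P, (1 + 1 / (p : ℝ))) :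
    NonDeficient (NP P) := by
  rw [nonDeficient_iff (NP_pos P)]
  have := h_ge_prod (NP_pos P).ne'
  rw [primeFactors_NP] at this
  exact hP.trans this

lemma H_NP_ge (P : ℕ) : ∏ p ∈ oddPr P, (1 + 1 / (p : ℝ)) ≤ H (NP P) := by
  have := h_ge_prod (NP_pos P).ne'
  rw [primeFactors_NP] at this
  exact this.trans (h_le_H (NP_pos P).ne')

lemma B1_infinite : B1.Infinite := by
  intro hfin
  obtain ⟨G, hG⟩ : ∃ G : ℝ, ∀ b ∈ B1, g b ≤ G := by
    obtain ⟨G, hG⟩ := (hfin.image g).bddAbove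
    exact ⟨G, fun b hb => hG ⟨b, hb, rfl⟩⟩
  obtain ⟨P, _, hP⟩ := exists_prod_ge (max 2 (G + 3)) 0
  have hnd := NP_nonDeficient ((le_max_left _ _).trans hP)
  obtain ⟨b, hb, _, hgb⟩ := exists_record (odd_NP P) hnd
  have h1 := hG b hb
  have h2 : G + 3 ≤ H (NP P) := ((le_max_right _ _).trans hP).trans (H_NP_ge P)
  have h3 : (1 : ℝ) ≤ Real.sqrt (NP P) := by
    rw [Real.one_le_sqrt]
    exact_mod_cast NP_pos P
  have h4 : H (NP P) - 2 ≤ g (NP P) := by
    unfold g S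
    have := two_le_H hnd
    nlinarith
  linarith

end Pool.Agent.V11313.Surplus
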