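import Mathlib

namespace Pool.Agent.V11313.Conv

open Filter Topology MonoidAlgebra

section general

variable {G : Type} [Group G]

/-- Convolution of two functions on a discrete group:
`(μ * f)(x) = ∑ y, μ(y) f(y⁻¹ x)`. -/
noncomputable def conv (μ f : G → ℂ) (x : G) : ℂ := ∑' y, μ y * f (y⁻¹ * x)

/-- Convolution powers of a function on a discrete group; the `0`-th power is the point mass at
the neutral element. -/
noncomputable def cpow (μ : G → ℂ) : ℕ → G → ℂ
  | 0 => fun x => open Classical in if x = 1 then 1 else 0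
  | k + 1 => conv μ (cpow μ k)

/-- The Hilbert space `ℓ²(G)`. -/
noncomputable abbrev H2 (G : Type) := lp (fun _ : G => ℂ) 2

lemma memlp_comp (e : G ≃ G) (f : H2 G) : Memℓp (fun x => f (e x)) 2 := by
  apply memℓp_gen
  have h := (lp.memℓp f).summable (by norm_num)
  exact (e.summable_iff (f := fun i => ‖f i‖ ^ (2 : ENNReal).toReal)).2 h

/-- Composition with a permutation of `G` as an operator on `ℓ²(G)`. -/
noncomputable def tr (e : G ≃ G) : H2 G →L[ℂ] H2 G :=
  LinearMap.mkContinuous
    { toFun := fun f => (⟨fun x => f (e x), memlp_comp e f⟩ : H2 G)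
      map_add' := fun f g => by ext x; rfl
      map_smul' := fun c f => by ext x; rfl } 1 (by
      intro f
      have h2 : (0 : ℝ) < (2 : ENNReal).toReal := by norm_num
      rw [one_mul, lp.norm_eq_tsum_rpow h2, lp.norm_eq_tsum_rpow h2]
      apply le_of_eq
      congr 1
      exact e.tsum_eq (fun i => ‖f i‖ ^ (2 : ENNReal).toReal))

@[simp] lemma tr_apply (e : G ≃ G) (f : H2 G) (x : G) : tr e f x = f (e x) := rfl

/-- The left regular representation. -/
noncomputable def U : G →* (H2 G →L[ℂ] H2 G) where
  toFun g := tr (Equiv.mulLeft g⁻¹)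
  map_one' := by
    ext f x
    simp
  map_mul' g h := by
    ext f x
    simp [mul_assoc]

@[simp] lemma U_apply (g : G) (f : H2 G) (x : G) : U g f x = f (g⁻¹ * x) := rfl

/-- The convolution operator of a finitely supported function. -/
noncomputable def lam : ℂ[G] →ₐ[ℂ] (H2 G →L[ℂ] H2 G) := MonoidAlgebra.lift ℂ _ G U

lemma lam_single (g : G) (c : ℂ) : lam (single g c) = c • U g := MonoidAlgebra.lift_single _ _ _

lemma tsum_support (m : ℂ[G]) (f : G → ℂ) :
    ∑' y, m.coeff y * f y = m.coeff.sum fun y c => c * f y := by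
  rw [Finsupp.sum]
  apply tsum_eq_sum
  intro y hy
  rw [Finsupp.notMem_support_iff.1 hy, zero_mul]

lemma conv_add (m m' : ℂ[G]) (f : G → ℂ) (x : G) :
    conv (m + m').coeff f x = conv m.coeff f x + conv m'.coeff f x := by
  unfold conv
  rw [tsum_support _ (fun y => f (y⁻¹ * x)), tsum_support _ (fun y => f (y⁻¹ * x)),
    tsum_support _ (fun y => f (y⁻¹ * x)), coeff_add]
  exact Finsupp.sum_add_index' (by simp) (by intros; ring)

lemma conv_single (g : G) (c : ℂ) (f : G → ℂ) (x : G) :
    conv (single g c).coeff f x = c * f (g⁻¹ * x) := by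
  unfold conv
  rw [tsum_support _ (fun y => f (y⁻¹ * x)), coeff_single, Finsupp.sum_single_index (by simp)]

lemma conv_zero (f : G → ℂ) (x : G) : conv (0 : ℂ[G]).coeff f x = 0 := by
  unfold conv
  simp

lemma lam_apply (m : ℂ[G]) (f : H2 G) (x : G) : lam m f x = conv m.coeff f x := by
  induction m using MonoidAlgebra.induction_linear with
  | zero => rw [map_zero, conv_zero]; rfl
  | add m m' h h' =>
    rw [map_add, conv_add, ← h, ← h']
    rfl
  | single g c =>
    rw [lam_single, conv_single]
    rfl

lemma conv_coeff (m m' : ℂ[G]) : conv m.coeff m'.coeff = (m * m').coeff := by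
  funext x
  induction m using MonoidAlgebra.induction_linear with
  | zero => rw [zero_mul, conv_zero]; rfl
  | add m n h h' =>
    rw [add_mul, conv_add, h, h']
    rfl
  | single g c =>
    rw [conv_single]
    exact (coeff_single_mul_eq_mul_coeff _ (fun y _ => by
      constructor
      · intro h; rw [← h]; group
      · intro h; rw [h]; group)).symm

lemma cpow_coeff (m : ℂ[G]) (k : ℕ) : cpow m.coeff k = (m ^ k).coeff := by
  induction k with
  | zero =>
    funext x
    classical
    rw [pow_zero, one_def, coeff_single, Finsupp.single_apply]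
    simp only [cpow]
    by_cases h : x = 1
    · simp [h]
    · simp [h, Ne.symm h]
  | succ k ih => rw [pow_succ', ← conv_coeff, ← ih, cpow]

end general

/-- The group `S₃ × ℤ`. -/
abbrev G3 := Equiv.Perm (Fin 3) × Multiplicative ℤ

/-- generator of the central copy of `ℤ` -/
def z (k : ℤ) : G3 := (1, Multiplicative.ofAdd k)

def a : Equiv.Perm (Fin 3) := Equiv.swap 0 1
def b : Equiv.Perm (Fin 3) := Equiv.swap 0 1 * Equiv.swap 1 2

/-- the point mass at the generator of `ℤ` -/
noncomputable def s : ℂ[G3] := single (z 1) 1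

/-- a nilpotent element of the group algebra of `S₃` -/
noncomputable def N : ℂ[G3] :=
  (1 - single (a, 1) 1) * single (b, 1) 1 * (1 + single (a, 1) 1)

lemma N_sq : N * N = 0 := by
  have h : (1 + single (a, 1) 1 : ℂ[G3]) * (1 - single (a, 1) 1) = 0 := by
    have h2 : (single ((a, 1) : G3) (1 : ℂ)) * single (a, 1) 1 = 1 := by
      rw [single_mul_single, one_def]
      congr 1
      · ext : 1
        · change a * a = 1
          decide
        · simp
      · simp
    have h3 : (1 + single (a, 1) 1 : ℂ[G3]) * (1 - single (a, 1) 1) =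
        1 - (single ((a, 1) : G3) (1 : ℂ)) * single (a, 1) 1 := by noncomm_ring
    rw [h3, h2, sub_self]
  unfold N
  calc (1 - single (a, 1) 1) * single (b, 1) 1 * (1 + single (a, 1) 1) *
        ((1 - single (a, 1) 1) * single (b, 1) 1 * (1 + single (a, 1) 1) : ℂ[G3])
      = (1 - single (a, 1) 1) * single (b, 1) 1 * ((1 + single (a, 1) 1) *
        (1 - single (a, 1) 1)) * single (b, 1) 1 * (1 + single (a, 1) 1) := by noncomm_ring
    _ = 0 := by rw [h]; simp

lemma s_pow (k : ℕ) : s ^ k = single (z k) 1 := by
  induction k with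
  | zero => rw [pow_zero, one_def]; rfl
  | succ k ih =>
    have hz : z k * z 1 = z ((k + 1 : ℕ) : ℤ) := by
      ext : 1
      · simp [z]
      · simp [z, ← ofAdd_add]
    rw [pow_succ, ih, s, single_mul_single, hz, mul_one]

lemma s_comm (m : ℂ[G3]) : s * m = m * s := by
  induction m using MonoidAlgebra.induction_linear with
  | zero => simp
  | add m m' h h' => rw [mul_add, add_mul, h, h']
  | single g c =>
    have hz : z 1 * g = g * z 1 := by
      ext : 1
      · simp [z]
      · simp [z, mul_comm]
    rw [s, single_mul_single, single_mul_single, hz, mul_comm c]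

/-- explicit form of `N` -/
lemma N_eq : N = single (b, 1) 1 + single (b * a, 1) 1 - single (a * b, 1) 1 -
    single (a * b * a, 1) 1 := by
  unfold N
  have e1 : (single ((a, 1) : G3) (1 : ℂ)) * single (b, 1) 1 = single (a * b, 1) 1 := by
    rw [single_mul_single]; simp
  have e2 : (single ((b, 1) : G3) (1 : ℂ)) * single (a, 1) 1 = single (b * a, 1) 1 := by
    rw [single_mul_single]; simp
  have e3 : (single ((a * b, 1) : G3) (1 : ℂ)) * single (a, 1) 1 = single (a * b * a, 1) 1 := by
    rw [single_mul_single]; simp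
  rw [sub_mul, one_mul, e1, mul_add, mul_one, sub_mul, e2, e3]
  abel

lemma N_coeff_b : N.coeff (b, 1) = 1 := by
  rw [N_eq]
  have h1 : ((b * a, 1) : G3) ≠ (b, 1) := by
    intro h; have := congrArg Prod.fst h; revert this; decide
  have h2 : ((a * b, 1) : G3) ≠ (b, 1) := by
    intro h; have := congrArg Prod.fst h; revert this; decide
  have h3 : ((a * b * a, 1) : G3) ≠ (b, 1) := by
    intro h; have := congrArg Prod.fst h; revert this; decide
  classical
  simp only [coeff_add, coeff_sub, coeff_single, Finsupp.add_apply, Finsupp.sub_apply,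
    Finsupp.single_apply, if_neg h1, if_neg h2, if_neg h3]
  simp

lemma N_coeff_ne (g : G3) (h : g.2 ≠ 1) : N.coeff g = 0 := by
  rw [N_eq]
  have h1 : ∀ c : Equiv.Perm (Fin 3), ((c, 1) : G3) ≠ g := by
    intro c hc
    apply h
    rw [← hc]
  classical
  simp only [coeff_add, coeff_sub, coeff_single, Finsupp.add_apply, Finsupp.sub_apply,
    Finsupp.single_apply, if_neg (h1 _)]
  simp

end Pool.Agent.V11313.Conv
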